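import Mathlib
import Pool.Agent.Lib.Helper20.Sendov.Defs

/-!
# The arc form

For a self-reciprocal polynomial with zeros `u r` of modulus one, the form `KC` is
`∑ r, (-133 - 330 (u r + conj (u r))) * p_r i * conj (p_r j)`.
-/

set_option autoImplicit false

open Finset ComplexConjugate Polynomial

namespace Sendov

section
variable {ι : Type*} [Fintype ι] [DecidableEq ι]

/-- the product over all indices except one -/
noncomputable def pr (w : ℂ) (u : ι → ℂ) (r : ι) : ℂ[X] :=
  C w * ∏ i ∈ univ.erase r, (X - C (u i))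

/-- the whole product -/
noncomputable def cp (w : ℂ) (u : ι → ℂ) : ℂ[X] := C w * ∏ i, (X - C (u i))

lemma cp_eq (w : ℂ) (u : ι → ℂ) (r : ι) : cp w u = (X - C (u r)) * pr w u r := by
  unfold cp pr
  rw [← mul_prod_erase univ (fun i => X - C (u i)) (mem_univ r)]
  ring

lemma derivative_cp (w : ℂ) (u : ι → ℂ) : derivative (cp w u) = ∑ r, pr w u r := by
  unfold cp pr
  rw [derivative_C_mul, derivative_prod_finset, ← mul_sum]
  simp

/-- shifted coefficients -/
noncomputable def qq (w : ℂ) (u : ι → ℂ) (r : ι) (i : ℕ) : ℂ :=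
  if i = 0 then 0 else (pr w u r).coeff (i - 1)

lemma coeff_cp (w : ℂ) (u : ι → ℂ) (r : ι) (i : ℕ) :
    (cp w u).coeff i = qq w u r i - u r * (pr w u r).coeff i := by
  rw [cp_eq w u r, sub_mul, coeff_sub, coeff_C_mul]
  unfold qq
  rcases i with _ | i
  · simp
  · simp [coeff_X_mul]

lemma sum_coeff_pr (w : ℂ) (u : ι → ℂ) (i : ℕ) :
    ∑ r, (pr w u r).coeff i = ((i : ℂ) + 1) * (cp w u).coeff (i + 1) := by
  have h := congrArg (fun p : ℂ[X] => p.coeff i) (derivative_cp w u)
  simp only [coeff_derivative, finsetSum_coeff] at h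
  rw [← h]
  ring

lemma sum_qq (w : ℂ) (u : ι → ℂ) (i : ℕ) :
    ∑ r, qq w u r i = (i : ℂ) * (cp w u).coeff i := by
  unfold qq
  rcases i with _ | i
  · simp
  · simp only [Nat.succ_ne_zero, if_false, Nat.add_sub_cancel]
    rw [sum_coeff_pr]
    push_cast
    ring

/-- the Hermite form -/
noncomputable def KK (w : ℂ) (u : ι → ℂ) (i j : ℕ) : ℂ :=
  ∑ r, (pr w u r).coeff i * conj ((pr w u r).coeff j)

/-- the shifted Hermite form -/
noncomputable def QQ (w : ℂ) (u : ι → ℂ) (i j : ℕ) : ℂ :=
  ∑ r, qq w u r i * conj (qq w u r j)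

lemma up_eq (w : ℂ) (u : ι → ℂ) (r : ι) (i : ℕ) :
    u r * (pr w u r).coeff i = qq w u r i - (cp w u).coeff i := by
  rw [coeff_cp w u r i]; ring

lemma KK_eq (w : ℂ) (u : ι → ℂ) (hu : ∀ r, u r * conj (u r) = 1) (hc : Fintype.card ι = 9)
    (i j : ℕ) :
    KK w u i j = QQ w u i j +
      (9 - (i : ℂ) - (j : ℂ)) * ((cp w u).coeff i * conj ((cp w u).coeff j)) := by
  unfold KK QQ
  have h1 : ∀ r, (pr w u r).coeff i * conj ((pr w u r).coeff j) =
      qq w u r i * conj (qq w u r j) - qq w u r i * conj ((cp w u).coeff j)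
        - (cp w u).coeff i * conj (qq w u r j) + (cp w u).coeff i * conj ((cp w u).coeff j) := by
    intro r
    have h2 : (u r * (pr w u r).coeff i) * conj (u r * (pr w u r).coeff j) =
        (pr w u r).coeff i * conj ((pr w u r).coeff j) := by
      rw [map_mul]
      linear_combination ((pr w u r).coeff i * conj ((pr w u r).coeff j)) * hu r
    rw [← h2, up_eq, up_eq, map_sub]
    ring
  have h3 : ∑ r, qq w u r i * conj ((cp w u).coeff j) =
      (i : ℂ) * (cp w u).coeff i * conj ((cp w u).coeff j) := by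
    rw [← sum_mul, sum_qq]
  have h4 : ∑ r, (cp w u).coeff i * conj (qq w u r j) =
      (cp w u).coeff i * ((j : ℂ) * conj ((cp w u).coeff j)) := by
    rw [← mul_sum, ← map_sum, sum_qq, map_mul, Complex.conj_natCast]
  rw [sum_congr rfl fun r _ => h1 r, sum_add_distrib, sum_sub_distrib, sum_sub_distrib, h3, h4]
  simp only [sum_const, card_univ, hc]
  simp only [nsmul_eq_mul, Nat.cast_ofNat]
  ring

lemma QQ_succ (w : ℂ) (u : ι → ℂ) (i j : ℕ) : QQ w u (i + 1) (j + 1) = KK w u i j := by
  unfold QQ KK qq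
  simp

lemma QQ_zero_left (w : ℂ) (u : ι → ℂ) (j : ℕ) : QQ w u 0 j = 0 := by
  unfold QQ qq
  simp

lemma QQ_zero_right (w : ℂ) (u : ι → ℂ) (i : ℕ) : QQ w u i 0 = 0 := by
  unfold QQ qq
  simp

lemma ck_succ (i j p q : ℕ) :
    ck (i + 1) (j + 1) p q = ck i j p q +
      (if p = i + 1 then (if q = j + 1 then 9 - (p : ℤ) - q else 0) else 0) := by
  unfold ck
  split_ifs <;> omega

lemma ck_zero_left (j p q : ℕ) :
    ck 0 j p q = if p = 0 then (if q = j then 9 - (p : ℤ) - q else 0) else 0 := by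
  unfold ck
  split_ifs <;> omega

lemma ck_zero_right (i p q : ℕ) :
    ck i 0 p q = if p = i then (if q = 0 then 9 - (p : ℤ) - q else 0) else 0 := by
  unfold ck
  split_ifs <;> omega

lemma sum_ind (c : ℕ → ℂ) (a b : ℕ) (ha : a < 10) (hb : b < 10) (g : ℕ → ℕ → ℤ) :
    ∑ p ∈ range 10, ∑ q ∈ range 10,
      (((if p = a then (if q = b then g p q else 0) else 0 : ℤ)) : ℂ) * (c p * conj (c q)) =
      (g a b : ℂ) * (c a * conj (c b)) := by
  rw [sum_eq_single a, sum_eq_single b]
  · simp
  · intro q _ hq; simp [hq]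
  · intro h; exact absurd (mem_range.2 hb) h
  · intro p _ hp; simp [hp]
  · intro h; exact absurd (mem_range.2 ha) h

lemma KK_closed (w : ℂ) (u : ι → ℂ) (hu : ∀ r, u r * conj (u r) = 1)
    (hc : Fintype.card ι = 9) : ∀ (i j : ℕ), i < 10 → j < 10 →
    KK w u i j = ∑ p ∈ range 10, ∑ q ∈ range 10,
      (ck i j p q : ℂ) * ((cp w u).coeff p * conj ((cp w u).coeff q)) := by
  intro i
  induction i with
  | zero =>
    intro j _ hj
    rw [KK_eq w u hu hc, QQ_zero_left]
    simp only [ck_zero_left]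
    rw [sum_ind (fun k => (cp w u).coeff k) 0 j (by norm_num) hj (fun p q => 9 - (p : ℤ) - q)]
    push_cast
    ring
  | succ i ih =>
    intro j hi hj
    rcases j with _ | j
    · rw [KK_eq w u hu hc, QQ_zero_right]
      simp only [ck_zero_right]
      rw [sum_ind (fun k => (cp w u).coeff k) (i + 1) 0 hi (by norm_num)
        (fun p q => 9 - (p : ℤ) - q)]
      push_cast
      ring
    · rw [KK_eq w u hu hc, QQ_succ, ih j (by omega) (by omega)]
      simp only [ck_succ, Int.cast_add, add_mul, sum_add_distrib]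
      rw [sum_ind (fun k => (cp w u).coeff k) (i + 1) (j + 1) hi hj (fun p q => 9 - (p : ℤ) - q)]
      push_cast
      ring

lemma sum_u_left (w : ℂ) (u : ι → ℂ) (i j : ℕ) :
    ∑ r, u r * ((pr w u r).coeff i * conj ((pr w u r).coeff j)) =
      (if 0 < i then KK w u (i - 1) j else 0) -
        (cp w u).coeff i * (((j : ℂ) + 1) * conj ((cp w u).coeff (j + 1))) := by
  have h1 : ∀ r, u r * ((pr w u r).coeff i * conj ((pr w u r).coeff j)) =
      qq w u r i * conj ((pr w u r).coeff j) -
        (cp w u).coeff i * conj ((pr w u r).coeff j) := by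
    intro r
    rw [← mul_assoc, up_eq]
    ring
  rw [sum_congr rfl fun r _ => h1 r, sum_sub_distrib, ← mul_sum, ← map_sum, sum_coeff_pr]
  congr 1
  · unfold KK qq
    rcases i with _ | i
    · simp
    · simp
  · rw [map_mul, map_add, Complex.conj_natCast, map_one]

lemma sum_u_right (w : ℂ) (u : ι → ℂ) (i j : ℕ) :
    ∑ r, conj (u r) * ((pr w u r).coeff i * conj ((pr w u r).coeff j)) =
      (if 0 < j then KK w u i (j - 1) else 0) -
        (((i : ℂ) + 1) * (cp w u).coeff (i + 1)) * conj ((cp w u).coeff j) := by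
  have h1 : ∀ r, conj (u r) * ((pr w u r).coeff i * conj ((pr w u r).coeff j)) =
      (pr w u r).coeff i * conj (qq w u r j) -
        (pr w u r).coeff i * conj ((cp w u).coeff j) := by
    intro r
    have h2 := congrArg conj (up_eq w u r j)
    rw [map_mul, map_sub] at h2
    linear_combination (pr w u r).coeff i * h2
  rw [sum_congr rfl fun r _ => h1 r, sum_sub_distrib, ← sum_mul, sum_coeff_pr]
  congr 1
  unfold KK qq
  rcases j with _ | j
  · simp
  · simp

theorem KC_eq (w : ℂ) (u : ι → ℂ) (hu : ∀ r, u r * conj (u r) = 1)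
    (hc : Fintype.card ι = 9) (i j : ℕ) (hi : i < 9) (hj : j < 9) :
    KC (fun k => (cp w u).coeff k) i j =
      ∑ r, (-133 - 330 * (u r + conj (u r))) *
        ((pr w u r).coeff i * conj ((pr w u r).coeff j)) := by
  have h1 : ∑ r, (-133 - 330 * (u r + conj (u r))) *
        ((pr w u r).coeff i * conj ((pr w u r).coeff j)) =
      -133 * KK w u i j -
        330 * (∑ r, u r * ((pr w u r).coeff i * conj ((pr w u r).coeff j)) +
          ∑ r, conj (u r) * ((pr w u r).coeff i * conj ((pr w u r).coeff j))) := by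
    unfold KK
    rw [← sum_add_distrib, mul_sum, mul_sum, ← sum_sub_distrib]
    refine sum_congr rfl fun r _ => ?_
    ring
  rw [h1, sum_u_left, sum_u_right]
  unfold KC
  set c : ℕ → ℂ := fun k => (cp w u).coeff k with hcdef
  have e0 := KK_closed w u hu hc i j (by omega) (by omega)
  have e1 : (if 0 < i then KK w u (i - 1) j else 0) =
      ∑ p ∈ range 10, ∑ q ∈ range 10,
        (((if 0 < i then ck (i - 1) j p q else 0 : ℤ)) : ℂ) * (c p * conj (c q)) := by
    by_cases h : 0 < i
    · simp only [h, if_true]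
      exact KK_closed w u hu hc (i - 1) j (by omega) (by omega)
    · simp [h]
  have e2 : (if 0 < j then KK w u i (j - 1) else 0) =
      ∑ p ∈ range 10, ∑ q ∈ range 10,
        (((if 0 < j then ck i (j - 1) p q else 0 : ℤ)) : ℂ) * (c p * conj (c q)) := by
    by_cases h : 0 < j
    · simp only [h, if_true]
      exact KK_closed w u hu hc i (j - 1) (by omega) (by omega)
    · simp [h]
  have e3 : (cp w u).coeff i * (((j : ℂ) + 1) * conj ((cp w u).coeff (j + 1))) =
      ∑ p ∈ range 10, ∑ q ∈ range 10,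
        (((if p = i then (if q = j + 1 then (q : ℤ) else 0) else 0 : ℤ)) : ℂ) *
          (c p * conj (c q)) := by
    rw [sum_ind c i (j + 1) (by omega) (by omega) (fun _ q => (q : ℤ))]
    push_cast
    rw [hcdef]
    ring
  have e4 : (((i : ℂ) + 1) * (cp w u).coeff (i + 1)) * conj ((cp w u).coeff j) =
      ∑ p ∈ range 10, ∑ q ∈ range 10,
        (((if p = i + 1 then (if q = j then (p : ℤ) else 0) else 0 : ℤ)) : ℂ) *
          (c p * conj (c q)) := by
    rw [sum_ind c (i + 1) j (by omega) (by omega) (fun p _ => (p : ℤ))]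
    push_cast
    rw [hcdef]
    ring
  rw [e0, e1, e2, e3, e4]
  simp only [mul_sum, ← sum_add_distrib, ← sum_sub_distrib]
  refine sum_congr rfl fun p _ => sum_congr rfl fun q _ => ?_
  have e5 : (coefK i j p q : ℂ) =
      -133 * (ck i j p q : ℂ) - 330 * ((((if 0 < i then ck (i - 1) j p q else 0 : ℤ)) : ℂ) +
        (((if 0 < j then ck i (j - 1) p q else 0 : ℤ)) : ℂ)) +
      330 * ((((if p = i then (if q = j + 1 then (q : ℤ) else 0) else 0 : ℤ)) : ℂ) +
        (((if p = i + 1 then (if q = j then (p : ℤ) else 0) else 0 : ℤ)) : ℂ)) := by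
    unfold coefK
    simp only [ite_and]
    push_cast
    ring
  rw [e5]
  ring

theorem arc_nonneg (w : ℂ) (u : ι → ℂ) (hu : ∀ r, ‖u r‖ = 1) (hre : ∀ r, (u r).re ≤ -133 / 660)
    (hc : Fintype.card ι = 9) (v : ℕ → ℂ) :
    0 ≤ (∑ i ∈ range 5, ∑ j ∈ range 5,
      conj (v i) * v j * KC (fun k => (cp w u).coeff k) i j).re := by
  have hu' : ∀ r, u r * conj (u r) = 1 := by
    intro r
    rw [Complex.mul_conj, Complex.normSq_eq_norm_sq, hu r]
    norm_num
  have h1 : ∑ i ∈ range 5, ∑ j ∈ range 5,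
      conj (v i) * v j * KC (fun k => (cp w u).coeff k) i j =
      ∑ r, (-133 - 330 * (u r + conj (u r))) *
        ((∑ i ∈ range 5, conj (v i) * (pr w u r).coeff i) *
          conj (∑ i ∈ range 5, conj (v i) * (pr w u r).coeff i)) := by
    have h2 : ∀ i ∈ range 5, ∀ j ∈ range 5,
        conj (v i) * v j * KC (fun k => (cp w u).coeff k) i j =
        ∑ r, (-133 - 330 * (u r + conj (u r))) *
          ((conj (v i) * (pr w u r).coeff i) * conj (conj (v j) * (pr w u r).coeff j)) := by
      intro i hi j hj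
      rw [mem_range] at hi hj
      rw [KC_eq w u hu' hc i j (by omega) (by omega), mul_sum]
      refine sum_congr rfl fun r _ => ?_
      rw [map_mul, Complex.conj_conj]
      ring
    rw [sum_congr rfl fun i hi => sum_congr rfl fun j hj => h2 i hi j hj]
    rw [sum_congr rfl fun i _ => sum_comm, sum_comm]
    refine sum_congr rfl fun r _ => ?_
    rw [map_sum, sum_mul_sum, mul_sum]
    refine sum_congr rfl fun i _ => ?_
    rw [mul_sum]
  rw [h1, Complex.re_sum]
  refine sum_nonneg fun r _ => ?_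
  rw [Complex.mul_conj]
  have h3 : (-133 - 330 * (u r + conj (u r)) : ℂ) = ((-133 - 660 * (u r).re : ℝ) : ℂ) := by
    rw [Complex.add_conj]
    push_cast
    ring
  rw [h3, ← Complex.ofReal_mul, Complex.ofReal_re]
  have h4 := hre r
  have h5 := Complex.normSq_nonneg (∑ i ∈ range 5, conj (v i) * (pr w u r).coeff i)
  exact mul_nonneg (by linarith) h5

end

end Sendov
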