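import Mathlib
import Pool.Agent.Lib.Helper20.Sendov.Defs

/-!
# The polynomial with coefficients `gC c`
-/

set_option autoImplicit false

open Finset ComplexConjugate Polynomial

namespace Sendov

lemma gam_sum (k : ℕ) (hk : k < 10) (z : ℂ) :
    ∑ m ∈ range 10, (gam m k : ℂ) * z ^ m =
      (2520 / ((k : ℂ) + 1)) * 22 ^ (9 - k) * (24 * z - 15) ^ k := by
  have hdvd : ((2520 / (k + 1) : ℕ) : ℂ) = 2520 / ((k : ℂ) + 1) := by
    have h1 : (k + 1) ∣ 2520 := by interval_cases k <;> decide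
    rw [Nat.cast_div h1 (by exact_mod_cast Nat.succ_ne_zero k)]
    push_cast
    rfl
  have h2 : ∑ m ∈ range 10, (gam m k : ℂ) * z ^ m =
      ∑ m ∈ range (k + 1), (gam m k : ℂ) * z ^ m := by
    symm
    apply sum_subset (range_subset_range.2 (by omega))
    intro m _ hm
    rw [mem_range, not_lt] at hm
    have : ¬ m ≤ k := by omega
    simp [gam, this]
  rw [h2, sub_eq_add_neg, add_pow, mul_sum]
  refine sum_congr rfl fun m hm => ?_
  rw [mem_range] at hm
  have h3 : m ≤ k := by omega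
  unfold gam
  rw [if_pos h3, ← hdvd]
  generalize 2520 / (k + 1) = q
  push_cast
  rw [mul_pow]
  ring

lemma gC_eval (c : ℕ → ℂ) (z : ℂ) :
    ∑ m ∈ range 10, gC c m * z ^ m =
      ∑ k ∈ range 10, c k * ((2520 / ((k : ℂ) + 1)) * 22 ^ (9 - k) * (24 * z - 15) ^ k) := by
  unfold gC
  simp only [sum_mul]
  rw [sum_comm]
  refine sum_congr rfl fun k hk => ?_
  rw [← gam_sum k (mem_range.1 hk) z, mul_sum]
  refine sum_congr rfl fun m _ => ?_
  ring

/-- the polynomial with coefficients `gC c m` -/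
noncomputable def gp (c : ℕ → ℂ) : ℂ[X] := ∑ m ∈ range 10, C (gC c m) * X ^ m

lemma gp_coeff (c : ℕ → ℂ) (m : ℕ) (hm : m < 10) : (gp c).coeff m = gC c m := by
  unfold gp
  rw [finsetSum_coeff, sum_eq_single m]
  · simp
  · intro b _ hb
    rw [coeff_C_mul, coeff_X_pow, if_neg (Ne.symm hb), mul_zero]
  · intro h; exact absurd (mem_range.2 hm) h

lemma gp_eval (c : ℕ → ℂ) (z : ℂ) : (gp c).eval z = ∑ m ∈ range 10, gC c m * z ^ m := by
  unfold gp
  rw [eval_finsetSum]
  simp

lemma gC_nine (c : ℕ → ℂ) : gC c 9 = (252 * 24 ^ 9) * c 9 := by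
  unfold gC
  rw [sum_eq_single 9]
  · congr 1
    unfold gam
    norm_num
  · intro k hk h
    rw [mem_range] at hk
    have : ¬ 9 ≤ k := by omega
    simp [gam, this]
  · intro h; exact absurd (mem_range.2 (by norm_num)) h

lemma gp_natDegree (c : ℕ → ℂ) (hc : c 9 ≠ 0) : (gp c).natDegree = 9 := by
  apply le_antisymm
  · unfold gp
    apply natDegree_sum_le_of_forall_le
    intro m hm
    rw [mem_range] at hm
    exact (natDegree_C_mul_X_pow_le _ _).trans (by omega)
  · apply le_natDegree_of_ne_zero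
    rw [gp_coeff c 9 (by norm_num), gC_nine]
    exact mul_ne_zero (by norm_num) hc

end Sendov
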