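import Mathlib

/-!
# A Schur-Cohn type inequality

If all zeros of `G` lie in the closed unit disc, then for the backward shift `T` on finitely
supported sequences one has `‖G(T) f‖ ≤ ‖G*(T) f‖`.
-/

set_option autoImplicit false

open Finset ComplexConjugate Polynomial

namespace Sendov

/-- the backward shift on sequences -/
def bshift : (ℕ → ℂ) →ₗ[ℂ] (ℕ → ℂ) where
  toFun f := fun l => f (l + 1)
  map_add' _ _ := rfl
  map_smul' _ _ := rfl

@[simp] lemma bshift_apply (f : ℕ → ℂ) (l : ℕ) : bshift f l = f (l + 1) := rfl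

lemma bshift_pow_apply (m : ℕ) (f : ℕ → ℂ) (l : ℕ) : (bshift ^ m) f l = f (l + m) := by
  induction m generalizing f l with
  | zero => simp
  | succ m ih =>
    rw [pow_succ, Module.End.mul_apply, ih, bshift_apply]
    congr 1

lemma aeval_bshift (g : ℂ[X]) (f : ℕ → ℂ) (l : ℕ) (n : ℕ) (hn : g.natDegree < n) :
    (aeval bshift g f) l = ∑ m ∈ range n, g.coeff m * f (l + m) := by
  rw [aeval_eq_sum_range' hn]
  simp [LinearMap.sum_apply, bshift_pow_apply]

/-- squared norm of the first `N` entries -/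
noncomputable def nrm (N : ℕ) (f : ℕ → ℂ) : ℝ := ∑ l ∈ range N, ‖f l‖ ^ 2

lemma sup_aeval (g : ℂ[X]) (N : ℕ) (f : ℕ → ℂ) (hf : ∀ i, N ≤ i → f i = 0) :
    ∀ i, N ≤ i → (aeval bshift g f) i = 0 := by
  intro i hi
  rw [aeval_bshift g f i (g.natDegree + 1) (Nat.lt_succ_self _)]
  exact sum_eq_zero fun m _ => by rw [hf (i + m) (by omega), mul_zero]

lemma nrm_step (a : ℂ) (ha : ‖a‖ ≤ 1) (N : ℕ) (f : ℕ → ℂ) (hf : ∀ i, N ≤ i → f i = 0) :
    nrm N (fun l => f (l + 1) - a * f l) ≤ nrm N (fun l => f l - conj a * f (l + 1)) := by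
  have key : ∀ l, ‖f (l + 1) - a * f l‖ ^ 2 =
      ‖f l - conj a * f (l + 1)‖ ^ 2 + (1 - ‖a‖ ^ 2) * (‖f (l + 1)‖ ^ 2 - ‖f l‖ ^ 2) := by
    intro l
    simp only [← Complex.normSq_eq_norm_sq]
    simp only [Complex.normSq_apply, Complex.sub_re, Complex.sub_im, Complex.mul_re,
      Complex.mul_im, Complex.conj_re, Complex.conj_im]
    ring
  unfold nrm
  have h1 : ∑ l ∈ range N, (1 - ‖a‖ ^ 2) * (‖f (l + 1)‖ ^ 2 - ‖f l‖ ^ 2) ≤ 0 := by
    rw [← mul_sum, sum_range_sub (fun l => ‖f l‖ ^ 2) N, hf N le_rfl]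
    have h2 : 0 ≤ 1 - ‖a‖ ^ 2 := by nlinarith [norm_nonneg a]
    have h3 : (‖(0 : ℂ)‖ ^ 2 - ‖f 0‖ ^ 2) ≤ 0 := by
      rw [norm_zero]
      nlinarith [norm_nonneg (f 0)]
    exact mul_nonpos_of_nonneg_of_nonpos h2 h3
  rw [sum_congr rfl fun l _ => key l, sum_add_distrib]
  linarith

lemma nrm_prod (s : Multiset ℂ) (hs : ∀ a ∈ s, ‖a‖ ≤ 1) (N : ℕ) :
    ∀ f : ℕ → ℂ, (∀ i, N ≤ i → f i = 0) →
    nrm N (aeval bshift (s.map fun a => X - C a).prod f) ≤
      nrm N (aeval bshift (s.map fun a => 1 - C (conj a) * X).prod f) := by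
  induction s using Multiset.induction_on with
  | empty => intro f _; simp
  | cons a s ih =>
    intro f hf
    have ha : ‖a‖ ≤ 1 := hs a (Multiset.mem_cons_self a s)
    have hs' : ∀ b ∈ s, ‖b‖ ≤ 1 := fun b hb => hs b (Multiset.mem_cons_of_mem hb)
    rw [Multiset.map_cons, Multiset.prod_cons, Multiset.map_cons, Multiset.prod_cons]
    set g := (s.map fun a => X - C a).prod with hg
    set g' := (s.map fun a => 1 - C (conj a) * X).prod with hg'
    have e1 : (aeval bshift ((X - C a) * g) f) =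
        fun l => (aeval bshift g f) (l + 1) - a * (aeval bshift g f) l := by
      rw [map_mul, Module.End.mul_apply]
      funext l
      simp [Module.algebraMap_end_apply]
    have e2 : (fun l => (aeval bshift g f) l - conj a * (aeval bshift g f) (l + 1)) =
        aeval bshift g (aeval bshift (1 - C (conj a) * X) f) := by
      rw [← Module.End.mul_apply, ← map_mul, mul_comm g, map_mul, Module.End.mul_apply]
      funext l
      simp [Module.algebraMap_end_apply]
    have e3 : aeval bshift ((1 - C (conj a) * X) * g') f =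
        aeval bshift g' (aeval bshift (1 - C (conj a) * X) f) := by
      rw [← Module.End.mul_apply, ← map_mul, mul_comm g']
    rw [e1, e3]
    refine (nrm_step a ha N _ (sup_aeval g N f hf)).trans ?_
    rw [e2]
    exact ih hs' _ (sup_aeval _ N f hf)

lemma reverse_X_sub_C (b : ℂ) : (X - C b : ℂ[X]).reverse = 1 - C b * X := by
  rw [reverse, natDegree_X_sub_C, reflect_sub, reflect_one_X, reflect_C, pow_one]

lemma reverse_prod (s : Multiset ℂ) :
    (s.map fun a => X - C (conj a)).prod.reverse =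
      (s.map fun a => 1 - C (conj a) * X).prod := by
  induction s using Multiset.induction_on with
  | empty =>
    rw [Multiset.map_zero, Multiset.map_zero, Multiset.prod_zero, ← C_1, reverse_C]
  | cons a s ih =>
    rw [Multiset.map_cons, Multiset.prod_cons, Multiset.map_cons, Multiset.prod_cons,
      reverse_mul_of_domain, ih, reverse_X_sub_C]

lemma reverse_map_conj (G : ℂ[X]) :
    (G.map (starRingEnd ℂ)).reverse =
      C (conj G.leadingCoeff) * (G.roots.map fun a => 1 - C (conj a) * X).prod := by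
  have hsp : G = C G.leadingCoeff * (G.roots.map fun a => X - C a).prod :=
    (IsAlgClosed.splits G).eq_prod_roots
  have h1 : G.map (starRingEnd ℂ) =
      C (conj G.leadingCoeff) * (G.roots.map fun a => X - C (conj a)).prod := by
    conv_lhs => rw [hsp]
    rw [Polynomial.map_mul, map_C, Polynomial.map_multiset_prod, Multiset.map_map]
    congr 2
    refine Multiset.map_congr rfl fun a _ => ?_
    simp
  rw [h1, reverse_mul_of_domain, reverse_C, reverse_prod]

theorem toeplitz_le (G : ℂ[X]) (hroots : ∀ z, G.eval z = 0 → ‖z‖ ≤ 1) (hG : G ≠ 0) (N : ℕ)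
    (hN : N ≤ G.natDegree + 1) (f : ℕ → ℂ) (hf : ∀ i, N ≤ i → f i = 0) :
    ∑ l ∈ range N, ‖∑ m ∈ range N, G.coeff m * f (l + m)‖ ^ 2 ≤
      ∑ l ∈ range N, ‖∑ m ∈ range N, conj (G.coeff (G.natDegree - m)) * f (l + m)‖ ^ 2 := by
  have hsp : G = C G.leadingCoeff * (G.roots.map fun a => X - C a).prod :=
    (IsAlgClosed.splits G).eq_prod_roots
  set H := (G.map (starRingEnd ℂ)).reverse with hH
  have hdeg : (G.map (starRingEnd ℂ)).natDegree = G.natDegree :=
    natDegree_map_eq_of_injective (RingHom.injective _) G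
  have hHdeg : H.natDegree < G.natDegree + 1 := by
    have h0 := reverse_natDegree_le (G.map (starRingEnd ℂ))
    rw [hdeg] at h0
    exact Nat.lt_succ_of_le h0
  have hcut : ∀ (c : ℕ → ℂ) (l : ℕ),
      ∑ m ∈ range (G.natDegree + 1), c m * f (l + m) = ∑ m ∈ range N, c m * f (l + m) := by
    intro c l
    symm
    apply sum_subset (range_subset_range.2 hN)
    intro m _ hm
    rw [mem_range, not_lt] at hm
    rw [hf (l + m) (by omega), mul_zero]
  have e1 : ∀ l, ∑ m ∈ range N, G.coeff m * f (l + m) = (aeval bshift G f) l := by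
    intro l
    rw [aeval_bshift G f l (G.natDegree + 1) (Nat.lt_succ_self _), hcut]
  have e2 : ∀ l, ∑ m ∈ range N, conj (G.coeff (G.natDegree - m)) * f (l + m) =
      (aeval bshift H f) l := by
    intro l
    rw [aeval_bshift H f l (G.natDegree + 1) hHdeg, hcut]
    refine sum_congr rfl fun m hm => ?_
    rw [mem_range] at hm
    rw [hH, coeff_reverse, hdeg, revAt_le (by omega), coeff_map]
  have hroots' : ∀ a ∈ G.roots, ‖a‖ ≤ 1 := fun a ha => hroots a ((mem_roots hG).1 ha)
  have h3 := nrm_prod G.roots hroots' N f hf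
  have e3 : ∀ l, (aeval bshift G f) l =
      G.leadingCoeff * (aeval bshift (G.roots.map fun a => X - C a).prod f) l := by
    intro l
    conv_lhs => rw [hsp]
    rw [map_mul, Module.End.mul_apply, aeval_C, Module.algebraMap_end_apply]
    rfl
  have e4 : ∀ l, (aeval bshift H f) l =
      conj G.leadingCoeff *
        (aeval bshift (G.roots.map fun a => 1 - C (conj a) * X).prod f) l := by
    intro l
    rw [hH, reverse_map_conj, map_mul, Module.End.mul_apply, aeval_C,
      Module.algebraMap_end_apply]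
    rfl
  simp only [e1, e2, e3, e4, norm_mul, mul_pow, RCLike.norm_conj]
  rw [← mul_sum, ← mul_sum]
  exact mul_le_mul_of_nonneg_left h3 (by positivity)

end Sendov
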