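import Mathlib
import Pool.Agent.Lib.Helper20.Sendov.Defs
import Pool.Agent.Lib.Helper30.Sendov.Toeplitz
import Pool.Agent.Lib.Helper30.Sendov.Arc
import Pool.Agent.Lib.Helper30.Sendov.Gp

/-!
# Reduction of the on-circle case to a real-linear family
-/

set_option autoImplicit false

open Finset ComplexConjugate Polynomial

namespace Sendov

section
variable {ι : Type*} [Fintype ι]

lemma prod_monic (u : ι → ℂ) : (∏ i, (X - C (u i)) : ℂ[X]).Monic :=
  monic_prod_of_monic _ _ fun i _ => monic_X_sub_C (u i)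

lemma prod_natDegree (u : ι → ℂ) :
    (∏ i, (X - C (u i)) : ℂ[X]).natDegree = Fintype.card ι := by
  rw [natDegree_prod_of_monic _ _ fun i _ => monic_X_sub_C (u i)]
  simp

lemma cp_natDegree (w : ℂ) (hw : w ≠ 0) (u : ι → ℂ) :
    (cp w u).natDegree = Fintype.card ι := by
  unfold cp
  rw [natDegree_C_mul hw, prod_natDegree]

lemma cp_leading (w : ℂ) (u : ι → ℂ) : (cp w u).leadingCoeff = w := by
  unfold cp
  rw [leadingCoeff_mul, leadingCoeff_C, (prod_monic u).leadingCoeff, mul_one]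

lemma cp_coeff_top (w : ℂ) (hw : w ≠ 0) (u : ι → ℂ) :
    (cp w u).coeff (Fintype.card ι) = w := by
  have h := cp_leading w u
  rw [leadingCoeff, cp_natDegree w hw u] at h
  exact h

lemma cp_roots (w : ℂ) (hw : w ≠ 0) (u : ι → ℂ) :
    (cp w u).roots = univ.val.map u := by
  unfold cp
  rw [roots_C_mul _ hw]
  have : (∏ i, (X - C (u i)) : ℂ[X]) = ((univ.val.map u).map fun a => X - C a).prod := by
    rw [Multiset.map_map]
    rfl
  rw [this, roots_multiset_prod_X_sub_C]

lemma conj_sq (u : ℂ) (hu : ‖u‖ = 1) : conj u * u = 1 := by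
  rw [mul_comm, Complex.mul_conj, Complex.normSq_eq_norm_sq, hu]
  norm_num

lemma cp_self (w : ℂ) (hw : w ≠ 0) (u : ι → ℂ) (hu : ∀ r, ‖u r‖ = 1)
    (hw2 : w ^ 2 = ∏ r, -conj (u r)) (hw1 : conj w * w = 1) :
    ((cp w u).map (starRingEnd ℂ)).reverse = cp w u := by
  rw [reverse_map_conj, cp_leading, cp_roots w hw u, Multiset.map_map]
  have h1 : (Multiset.map ((fun a => 1 - C (conj a) * X) ∘ u) univ.val).prod =
      ∏ r, (C (-conj (u r)) * (X - C (u r)) : ℂ[X]) := by
    change ∏ r, ((fun a => 1 - C (conj a) * X) ∘ u) r = _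
    refine prod_congr rfl fun r _ => ?_
    have h2 : (C (conj (u r)) * C (u r) : ℂ[X]) = 1 := by
      rw [← C_mul, conj_sq (u r) (hu r), C_1]
    simp only [Function.comp_apply, C_neg]
    linear_combination -h2
  rw [h1, prod_mul_distrib, ← map_prod, ← hw2]
  unfold cp
  rw [← mul_assoc, ← C_mul]
  congr 2
  linear_combination w * hw1

lemma cp_symm (w : ℂ) (hw : w ≠ 0) (u : ι → ℂ) (hu : ∀ r, ‖u r‖ = 1)
    (hw2 : w ^ 2 = ∏ r, -conj (u r)) (hw1 : conj w * w = 1) (hc : Fintype.card ι = 9)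
    (k : ℕ) (hk : k ≤ 9) : conj ((cp w u).coeff k) = (cp w u).coeff (9 - k) := by
  conv_rhs => rw [← cp_self w hw u hu hw2 hw1]
  have hdeg : ((cp w u).map (starRingEnd ℂ)).natDegree = 9 := by
    rw [natDegree_map_eq_of_injective (RingHom.injective _), cp_natDegree w hw, hc]
  rw [coeff_reverse, hdeg, revAt_le (by omega), coeff_map]
  congr 2
  omega

end

lemma eq_of_derivative_eq (A B : ℂ[X]) (h : derivative A = derivative B)
    (h0 : A.eval 0 = B.eval 0) : A = B := by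
  have h1 : derivative (A - B) = 0 := by rw [derivative_sub, h, sub_self]
  have h2 := Polynomial.derivative_eq_zero.1 h1
  have h3 := eq_C_of_natDegree_eq_zero h2
  have h4 : (A - B).eval 0 = 0 := by rw [eval_sub, h0, sub_self]
  rw [h3, eval_C] at h4
  rw [h4, C_0] at h3
  exact sub_eq_zero.1 h3

/-- the antiderivative divided by the variable -/
noncomputable def RR (c : ℕ → ℂ) : ℂ[X] := ∑ k ∈ range 10, C (c k / ((k : ℂ) + 1)) * X ^ k

lemma derivative_X_mul_RR (c : ℕ → ℂ) :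
    derivative (X * RR c) = ∑ k ∈ range 10, C (c k) * X ^ k := by
  unfold RR
  rw [mul_sum, derivative_sum]
  refine sum_congr rfl fun k _ => ?_
  have h1 : (X * (C (c k / ((k : ℂ) + 1)) * X ^ k) : ℂ[X]) =
      C (c k / ((k : ℂ) + 1)) * X ^ (k + 1) := by ring
  have h2 : ((k : ℂ) + 1) ≠ 0 := by exact_mod_cast Nat.succ_ne_zero k
  rw [h1, derivative_C_mul_X_pow, Nat.add_sub_cancel]
  congr 2
  push_cast
  field_simp

lemma RR_eval (c : ℕ → ℂ) (v : ℂ) :
    (RR c).eval v = ∑ k ∈ range 10, c k / ((k : ℂ) + 1) * v ^ k := by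
  unfold RR
  rw [eval_finsetSum]
  simp

lemma gp_root (c : ℕ → ℂ) (z : ℂ) (h : (gp c).eval z = 0) :
    (RR c).eval ((24 * z - 15) / 22) = 0 := by
  rw [gp_eval, gC_eval] at h
  rw [RR_eval]
  have h1 : ∑ k ∈ range 10,
      c k * ((2520 / ((k : ℂ) + 1)) * 22 ^ (9 - k) * (24 * z - 15) ^ k) =
      (2520 * 22 ^ 9) * ∑ k ∈ range 10, c k / ((k : ℂ) + 1) * ((24 * z - 15) / 22) ^ k := by
    rw [mul_sum]
    refine sum_congr rfl fun k hk => ?_
    rw [mem_range] at hk
    have h2 : (22 : ℂ) ^ 9 = 22 ^ (9 - k) * 22 ^ k := by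
      rw [← pow_add]; congr 1; omega
    have h3 : ((24 * z - 15) / 22) ^ k * 22 ^ k = (24 * z - 15) ^ k := by
      rw [← mul_pow]; congr 1; field_simp
    rw [h2, ← h3]
    ring
  rw [h1] at h
  exact (mul_eq_zero.1 h).resolve_left (by norm_num)

lemma shrink (v : ℂ) (d : ℝ) (hd : 11 / 12 ≤ d) (h : ‖(5 / 8 : ℂ) + d * v‖ ≤ 1) :
    ‖(5 / 8 : ℂ) + (11 / 12) * v‖ ≤ 1 := by
  have hdpos : 0 < d := by linarith
  have hdc : (d : ℂ) ≠ 0 := by exact_mod_cast hdpos.ne'
  set s : ℝ := (11 / 12) / d with hs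
  have hs0 : 0 ≤ s := by positivity
  have hs1 : s ≤ 1 := by rw [hs, div_le_one hdpos]; exact hd
  have h1 : (5 / 8 : ℂ) + (11 / 12) * v =
      ((1 - s : ℝ) : ℂ) * (5 / 8) + (s : ℂ) * ((5 / 8 : ℂ) + d * v) := by
    rw [hs]
    push_cast
    field_simp
    ring
  rw [h1]
  refine (norm_add_le _ _).trans ?_
  rw [norm_mul, norm_mul, Complex.norm_real, Complex.norm_real, Real.norm_eq_abs,
    Real.norm_eq_abs, abs_of_nonneg hs0, abs_of_nonneg (by linarith : 0 ≤ 1 - s)]
  have h2 : ‖(5 / 8 : ℂ)‖ ≤ 1 := by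
    have : (5 / 8 : ℂ) = ((5 / 8 : ℝ) : ℂ) := by push_cast; ring
    rw [this, Complex.norm_real, Real.norm_eq_abs]
    norm_num [abs_of_pos]
  nlinarith [mul_le_mul_of_nonneg_left h hs0,
    mul_le_mul_of_nonneg_left h2 (by linarith : 0 ≤ 1 - s)]

lemma re_le (v : ℂ) (hv : ‖v‖ = 1) (h : ‖(5 / 8 : ℂ) + (11 / 12) * v‖ ≤ 1) :
    v.re ≤ -133 / 660 := by
  have h1 : ‖(5 / 8 : ℂ) + (11 / 12) * v‖ ^ 2 ≤ 1 := by
    nlinarith [norm_nonneg ((5 / 8 : ℂ) + (11 / 12) * v)]
  have h2 : ‖v‖ ^ 2 = 1 := by rw [hv]; norm_num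
  rw [← Complex.normSq_eq_norm_sq, Complex.normSq_apply] at h1 h2
  have e1 : ((5 / 8 : ℂ) + (11 / 12) * v).re = 5 / 8 + 11 / 12 * v.re := by
    have a1 : (5 / 8 : ℂ) = ((5 / 8 : ℝ) : ℂ) := by push_cast; ring
    have a2 : (11 / 12 : ℂ) = ((11 / 12 : ℝ) : ℂ) := by push_cast; ring
    rw [a1, a2, Complex.add_re, Complex.re_ofReal_mul, Complex.ofReal_re]
  have e2 : ((5 / 8 : ℂ) + (11 / 12) * v).im = 11 / 12 * v.im := by
    have a1 : (5 / 8 : ℂ) = ((5 / 8 : ℝ) : ℂ) := by push_cast; ring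
    have a2 : (11 / 12 : ℂ) = ((11 / 12 : ℝ) : ℂ) := by push_cast; ring
    rw [a1, a2, Complex.add_im, Complex.im_ofReal_mul, Complex.ofReal_im, zero_add]
  rw [e1, e2] at h1
  nlinarith

theorem exists_c (P : ℂ[X]) (hdeg : P.natDegree = 10) (ha : P.eval (5 / 8) = 0)
    (hz : ∀ z, P.eval z = 0 → ‖z‖ ≤ 1) (d : ℝ) (hd : 11 / 12 ≤ d)
    (h : ∀ z, (derivative P).eval z = 0 → ‖z - 5 / 8‖ = d) :
    ∃ c : ℕ → ℂ, c 9 ≠ 0 ∧ (∀ k ≤ 9, conj (c k) = c (9 - k)) ∧
      (∀ f : ℕ → ℂ, (∀ i, 7 ≤ i → f i = 0) →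
        ∑ l ∈ range 7, ‖∑ m ∈ range 7, gC c m * f (l + m)‖ ^ 2 ≤
          ∑ l ∈ range 7, ‖∑ m ∈ range 7, conj (gC c (9 - m)) * f (l + m)‖ ^ 2) ∧
      (∀ v : ℕ → ℂ, 0 ≤ (∑ i ∈ range 5, ∑ j ∈ range 5,
        conj (v i) * v j * KC c i j).re) := by
  classical
  have hdpos : 0 < d := by linarith
  have hdc : (d : ℂ) ≠ 0 := by exact_mod_cast hdpos.ne'
  have hP0 : P ≠ 0 := by
    rintro rfl
    simp at hdeg
  have hPdeg : 0 < P.degree := by
    rw [degree_eq_natDegree hP0, hdeg]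
    exact_mod_cast (by norm_num : 0 < 10)
  have hlead : P.coeff 10 ≠ 0 := by
    rw [← hdeg]
    exact leadingCoeff_ne_zero.2 hP0
  set D := derivative P with hD
  have hD9 : D.natDegree = 9 := by
    apply le_antisymm
    · have h1 := natDegree_derivative_le P
      rw [hdeg] at h1
      exact h1
    · apply le_natDegree_of_ne_zero
      rw [hD, coeff_derivative]
      exact mul_ne_zero hlead (by norm_num)
  have hD0 : D ≠ 0 := by
    intro h0
    rw [h0] at hD9
    simp at hD9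
  let ι := Multiset.ToType D.roots
  have hcard : Fintype.card ι = 9 := by
    rw [Multiset.card_coe, ← (IsAlgClosed.splits D).natDegree_eq_card_roots, hD9]
  let ζ : ι → ℂ := fun r => (r : ℂ)
  have hζ0 : ∀ r, D.eval (ζ r) = 0 := fun r => (mem_roots hD0).1 (Multiset.coe_mem)
  have hprod : D = C D.leadingCoeff * ∏ r, (X - C (ζ r)) := by
    conv_lhs => rw [(IsAlgClosed.splits D).eq_prod_roots]
    congr 1
    have := Multiset.map_univ D.roots (fun a => (X - C a : ℂ[X]))
    rw [← this]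
    rfl
  have hL0 : D.leadingCoeff ≠ 0 := leadingCoeff_ne_zero.2 hD0
  set L := D.leadingCoeff with hL
  let u : ι → ℂ := fun r => (ζ r - 5 / 8) / d
  have hu : ∀ r, ‖u r‖ = 1 := by
    intro r
    change ‖(ζ r - 5 / 8) / d‖ = 1
    rw [norm_div, h _ (hζ0 r), Complex.norm_real, Real.norm_eq_abs, abs_of_pos hdpos,
      div_self hdpos.ne']
  have hζu : ∀ r, ζ r = 5 / 8 + d * u r := by
    intro r
    change ζ r = 5 / 8 + d * ((ζ r - 5 / 8) / d)
    field_simp
    ring
  have hζ1 : ∀ r, ‖ζ r‖ ≤ 1 := by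
    intro r
    have h1 : ζ r ∈ D.rootSet ℂ := by
      rw [mem_rootSet]
      exact ⟨hD0, by rw [coe_aeval_eq_eval]; exact hζ0 r⟩
    have h2 := rootSet_derivative_subset_convexHull_rootSet hPdeg h1
    have h3 : convexHull ℝ (P.rootSet ℂ) ⊆ Metric.closedBall (0 : ℂ) 1 := by
      apply convexHull_min _ (convex_closedBall 0 1)
      intro z hz'
      rw [mem_rootSet, coe_aeval_eq_eval] at hz'
      rw [mem_closedBall_zero_iff]
      exact hz z hz'.2
    exact mem_closedBall_zero_iff.1 (h3 h2)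
  have hre : ∀ r, (u r).re ≤ -133 / 660 := by
    intro r
    apply re_le _ (hu r)
    apply shrink _ d hd
    rw [← hζu r]
    exact hζ1 r
  obtain ⟨w, hw2⟩ := IsAlgClosed.exists_pow_nat_eq (∏ r, -conj (u r)) (n := 2) (by norm_num)
  have hwn : ‖w‖ = 1 := by
    have h1 : ‖w‖ ^ 2 = 1 := by
      rw [← norm_pow, hw2, norm_prod]
      apply prod_eq_one
      intro r _
      rw [norm_neg, RCLike.norm_conj, hu r]
    nlinarith [norm_nonneg w]
  have hw0 : w ≠ 0 := by
    intro h0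
    rw [h0, norm_zero] at hwn
    exact zero_ne_one hwn
  set c : ℕ → ℂ := fun k => (cp w u).coeff k with hc
  have hc9 : c 9 = w := by
    have h1 := cp_coeff_top w hw0 u
    rw [hcard] at h1
    exact h1
  have hc9' : c 9 ≠ 0 := by rw [hc9]; exact hw0
  refine ⟨c, hc9', ?_, ?_, ?_⟩
  · intro k hk
    exact cp_symm w hw0 u hu hw2 (conj_sq w hwn) hcard k hk
  · have hcpsum : cp w u = ∑ k ∈ range 10, C (c k) * X ^ k := by
      have h1 := (cp w u).as_sum_range' 10 (by rw [cp_natDegree w hw0 u, hcard]; norm_num)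
      conv_lhs => rw [h1]
      refine sum_congr rfl fun k _ => ?_
      rw [C_mul_X_pow_eq_monomial]
    have hcomp : P.comp (C (5 / 8) + C (d : ℂ) * X) =
        C (L * d ^ 10 / w) * (X * RR c) := by
      apply eq_of_derivative_eq
      · rw [derivative_comp, derivative_C_mul, derivative_X_mul_RR, ← hcpsum, ← hD]
        have h1 : (∏ r, (X - C (ζ r)) : ℂ[X]).comp (C (5 / 8) + C (d : ℂ) * X) =
            C ((d : ℂ) ^ 9) * ∏ r, (X - C (u r)) := by
          rw [Polynomial.prod_comp]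
          have h2 : ∀ r, (X - C (ζ r) : ℂ[X]).comp (C (5 / 8) + C (d : ℂ) * X) =
              C (d : ℂ) * (X - C (u r)) := by
            intro r
            rw [sub_comp, X_comp, C_comp, hζu r, C_add, C_mul]
            ring
          rw [prod_congr rfl fun r _ => h2 r, prod_mul_distrib, prod_const, card_univ, hcard,
            ← C_pow]
        have h5 : D.comp (C (5 / 8) + C (d : ℂ) * X) =
            C L * (C ((d : ℂ) ^ 9) * ∏ r, (X - C (u r))) := by
          have h6 := congrArg (fun p : ℂ[X] => p.comp (C (5 / 8) + C (d : ℂ) * X)) hprod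
          simp only [mul_comp, C_comp] at h6
          rw [h6, h1]
        rw [h5]
        unfold cp
        have h3 : (L * (d : ℂ) ^ 10 / w) * w = L * d ^ 10 := by
          field_simp
        have h4 : derivative (C (5 / 8) + C (d : ℂ) * X : ℂ[X]) = C (d : ℂ) := by
          simp
        rw [h4, ← mul_assoc (C (L * (d : ℂ) ^ 10 / w)), ← C_mul, h3]
        simp only [C_mul, C_pow]
        ring
      · rw [eval_comp]
        simp [ha]
    have hev : ∀ v : ℂ, P.eval (5 / 8 + d * v) = (L * d ^ 10 / w) * (v * (RR c).eval v) := by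
      intro v
      have h1 := congrArg (eval v) hcomp
      rw [eval_comp] at h1
      simpa using h1
    have hgp0 : gp c ≠ 0 := by
      intro h0
      have h1 := gp_natDegree c hc9'
      rw [h0] at h1
      simp at h1
    have hgroots : ∀ z, (gp c).eval z = 0 → ‖z‖ ≤ 1 := by
      intro z hz0
      have h1 := gp_root c z hz0
      have h2 := hz _ (by rw [hev, h1, mul_zero, mul_zero])
      have h3 := shrink _ d hd h2
      have h4 : (5 / 8 : ℂ) + (11 / 12) * ((24 * z - 15) / 22) = z := by ring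
      rw [h4] at h3
      exact h3
    intro f hf
    have h5 := toeplitz_le (gp c) hgroots hgp0 7 (by rw [gp_natDegree c hc9']; norm_num) f hf
    rw [gp_natDegree c hc9'] at h5
    have h6 : ∀ l, ∑ m ∈ range 7, (gp c).coeff m * f (l + m) =
        ∑ m ∈ range 7, gC c m * f (l + m) := by
      intro l
      refine sum_congr rfl fun m hm => ?_
      rw [mem_range] at hm
      rw [gp_coeff c m (by omega)]
    have h7 : ∀ l, ∑ m ∈ range 7, conj ((gp c).coeff (9 - m)) * f (l + m) =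
        ∑ m ∈ range 7, conj (gC c (9 - m)) * f (l + m) := by
      intro l
      refine sum_congr rfl fun m _ => ?_
      rw [gp_coeff c (9 - m) (by omega)]
    simp only [h6, h7] at h5
    exact h5
  · intro v
    exact arc_nonneg w u hu hre hcard v

end Sendov
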